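import Pool.Agent.X165.HexM

/-!
# A non-ellipsoidal body whose body of flotation and body of buoyancy are homothetic

Let `K ⊂ ℝ²` be the (affinely regular) hexagon with the vertices `±(1,0)`, `±(1,1)`, `±(0,1)`, of
area `3`, and `δ = 1/2`, the area of the triangle cut off by a short diagonal.  Every chord of
flotation joins a side to the next side but one.  The piece which it cuts off is a triangle (cut off
from a fixed angle, of area `1`) minus a fixed triangle, of area `1/2`; so its centroid is `4/3`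
times the midpoint of the chord.  The reflection of the piece in the midpoint of the chord is
contained in `K`; so the midpoints of the chords lie on the boundary of the body of flotation, which
is their convex hull.  Hence the body of buoyancy is `4/3` times the body of flotation.
-/

set_option autoImplicit false

open MeasureTheory Set
open scoped Pointwise

namespace Pool.Agent.Results.MP_56fddc_gt.HexagonCounterexample

abbrev E (n : ℕ) := EuclideanSpace ℝ (Fin n)

/-- convex bodies: compact convex sets with nonempty interior -/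
def IsConvexBody {n : ℕ} (K : Set (E n)) : Prop :=
  IsCompact K ∧ Convex ℝ K ∧ (interior K).Nonempty

/-- closed half-spaces -/
def IsHalfSpace {n : ℕ} (H : Set (E n)) : Prop :=
  ∃ u : E n, u ≠ 0 ∧ ∃ t : ℝ, H = {x | t ≤ inner ℝ u x}

/-- `δ`-admissible half-spaces: `Vol(K ∩ H) = δ` -/
def Admissible {n : ℕ} (K : Set (E n)) (δ : ℝ) (H : Set (E n)) : Prop :=
  IsHalfSpace H ∧ volume (K ∩ H) = ENNReal.ofReal δ

/-- the body of flotation: the intersection of the sets `closure (K \ H)`, `H` admissible -/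
def flotation {n : ℕ} (K : Set (E n)) (δ : ℝ) : Set (E n) :=
  {x | ∀ H : Set (E n), Admissible K δ H → x ∈ closure (K \ H)}

/-- the centroid of a set (the average of `x` over the set) -/
noncomputable def centroid {n : ℕ} (A : Set (E n)) : E n := ⨍ x in A, x

/-- the body of buoyancy: the convex hull of the centroids of the sets `K ∩ H`, `H` admissible -/
noncomputable def buoyancy {n : ℕ} (K : Set (E n)) (δ : ℝ) : Set (E n) :=
  convexHull ℝ {c | ∃ H : Set (E n), Admissible K δ H ∧ c = centroid (K ∩ H)}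

/-- `A` and `B` are homothetic: a dilation with centre `c` and factor `r > 0` maps `A` onto `B` -/
def Homothetic {n : ℕ} (A B : Set (E n)) : Prop :=
  ∃ (c : E n) (r : ℝ), 0 < r ∧ (fun x => c + r • (x - c)) '' A = B

/-- solid ellipsoids: the images of the closed unit ball under invertible affine maps -/
def IsEllipsoid {n : ℕ} (K : Set (E n)) : Prop :=
  ∃ (L : E n ≃ₗ[ℝ] E n) (c : E n), K = (fun x => c + L x) '' Metric.closedBall 0 1

open Pool.Agent.X165.HX

lemma halfSpace_iff {H : Set (E 2)} : IsHalfSpace H ↔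
    ∃ α β t : ℝ, (α ≠ 0 ∨ β ≠ 0) ∧ H = hp α β t := by
  constructor
  · rintro ⟨u, hu, t, rfl⟩
    refine ⟨u 0, u 1, t, ?_, ?_⟩
    · by_contra hc
      push Not at hc
      apply hu
      ext i
      fin_cases i
      · exact hc.1
      · exact hc.2
    · ext x
      simp only [hp, mem_ofPred_eq, PiLp.inner_apply, Fin.sum_univ_two, RCLike.inner_apply,
        conj_trivial]
      rw [mul_comm (x 0), mul_comm (x 1)]
  · rintro ⟨α, β, t, h, rfl⟩
    refine ⟨!₂[α, β], ?_, t, ?_⟩
    · intro h0
      have h1 := congrArg (fun v : E 2 => v 0) h0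
      have h2 := congrArg (fun v : E 2 => v 1) h0
      simp at h1 h2
      rcases h with h | h
      · exact h h1
      · exact h h2
    · ext x
      simp only [hp, mem_ofPred_eq, PiLp.inner_apply, Fin.sum_univ_two, RCLike.inner_apply,
        conj_trivial]
      simp [mul_comm]

lemma good_centroid {α β t : ℝ} {m : E 2} (h : Good α β t m) :
    centroid (hex ∩ hp α β t) = (4 / 3 : ℝ) • m := by
  unfold centroid
  rw [setAverage_eq, h.int, measureReal_def, h.vol, ENNReal.toReal_ofReal (by norm_num), smul_smul]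
  norm_num

/-- every midpoint belongs to a good half-plane -/
lemma mids_good {m : E 2} (hm : m ∈ mids) :
    ∃ α β t : ℝ, (α ≠ 0 ∨ β ≠ 0) ∧ Good α β t m := by
  obtain ⟨k, ⟨c, ⟨a, ⟨ha1, ha2⟩, rfl⟩, rfl⟩⟩ := mem_iUnion.1 hm
  have hb1 : 1 ≤ 2 / a := by rw [le_div_iff₀ (by linarith)]; linarith
  have hab : a * (2 / a) = 2 := by field_simp
  have h0 := good_zero ha1 hb1 hab
  have key : ∀ j : ℕ, ∃ α β t : ℝ, (α ≠ 0 ∨ β ≠ 0) ∧
      Good α β t ((rot.symm)^[j] (mid a (2 / a))) := by
    intro j
    induction j with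
    | zero => exact ⟨_, _, _, Or.inr (by linarith : (2 / a : ℝ) ≠ 0), h0⟩
    | succ j ih =>
      obtain ⟨α, β, t, hne, h⟩ := ih
      rw [Function.iterate_succ_apply']
      refine ⟨_, _, _, ?_, good_rot h⟩
      by_contra hc
      push Not at hc
      have h1 : α = 0 := by linarith [hc.2]
      have h2 : β = 0 := by linarith [hc.1]
      simp_all
  exact key k

/-- every admissible half-plane is good -/
lemma admissible_good {H : Set (E 2)} (hH : Admissible hex (1 / 2) H) :
    ∃ α β t : ℝ, ∃ m ∈ mids, (α ≠ 0 ∨ β ≠ 0) ∧ H = hp α β t ∧ Good α β t m := by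
  obtain ⟨h1, h2⟩ := hH
  obtain ⟨α, β, t, hne, rfl⟩ := halfSpace_iff.1 h1
  obtain ⟨s, m, hm, hg⟩ := P_all hne
  have : s = t := level_unique hg.vol h2
  subst this
  exact ⟨α, β, s, m, hm, hne, rfl, hg⟩

lemma good_admissible {α β t : ℝ} {m : E 2} (hne : α ≠ 0 ∨ β ≠ 0) (h : Good α β t m) :
    Admissible hex (1 / 2) (hp α β t) := ⟨halfSpace_iff.2 ⟨α, β, t, hne, rfl⟩, h.vol⟩

lemma centroids_eq : {c : E 2 | ∃ H : Set (E 2), Admissible hex (1 / 2) H ∧
    c = centroid (hex ∩ H)} = (fun x : E 2 => (4 / 3 : ℝ) • x) '' mids := by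
  ext c
  constructor
  · rintro ⟨H, hH, rfl⟩
    obtain ⟨α, β, t, m, hm, hne, rfl, hg⟩ := admissible_good hH
    exact ⟨m, hm, (good_centroid hg).symm⟩
  · rintro ⟨m, hm, rfl⟩
    obtain ⟨α, β, t, hne, hg⟩ := mids_good hm
    exact ⟨_, good_admissible hne hg, (good_centroid hg).symm⟩

lemma buoyancy_eq : buoyancy hex (1 / 2) = (fun x : E 2 => (4 / 3 : ℝ) • x) '' convexHull ℝ mids := by
  unfold buoyancy
  rw [centroids_eq]
  have := (LinearMap.lsmul ℝ (E 2) (4 / 3 : ℝ)).image_convexHull mids
  exact this.symm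

lemma flotation_eq : flotation hex (1 / 2) = convexHull ℝ mids := by
  apply Subset.antisymm
  · intro z hz
    by_contra hc
    have hcl : IsClosed (convexHull ℝ mids) :=
      (Pool.Agent.TH276.Torsion.isCompact_convexHull_of_isCompact mids_compact).isClosed
    obtain ⟨f, u, h1, h2⟩ := geometric_hahn_banach_closed_point (convex_convexHull ℝ mids) hcl hc
    set α := f (!₂[1, 0] : E 2) with hα
    set β := f (!₂[0, 1] : E 2) with hβ
    have hf : ∀ x : E 2, f x = ev α β x := by
      intro x
      have : x = x 0 • (!₂[1, 0] : E 2) + x 1 • (!₂[0, 1] : E 2) := by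
        ext i; fin_cases i <;> simp
      conv_lhs => rw [this]
      rw [map_add, map_smul, map_smul]
      simp only [ev, smul_eq_mul, hα, hβ]
      ring
    have hne : α ≠ 0 ∨ β ≠ 0 := by
      by_contra hc'
      push Not at hc'
      obtain ⟨m, hm⟩ : mids.Nonempty := by
        obtain ⟨t, m, hm, -⟩ := P_all (α := 1) (β := 0) (Or.inl one_ne_zero)
        exact ⟨m, hm⟩
      have e1 := h1 m (subset_convexHull ℝ _ hm)
      rw [hf] at e1 h2
      simp only [ev, hc'.1, hc'.2, zero_mul, add_zero] at e1 h2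
      linarith
    obtain ⟨t, m, hm, hg⟩ := P_all hne
    have hmt : ev α β m = t := hg.on
    have h3 := h1 m (subset_convexHull ℝ _ hm)
    rw [hf, hmt] at h3
    rw [hf] at h2
    have hzc := hz _ (good_admissible hne hg)
    have hsub : hex \ hp α β t ⊆ {x | ev α β x ≤ t} := by
      rintro x ⟨-, hx⟩
      exact (not_le.1 (show ¬ t ≤ ev α β x from hx)).le
    have := closure_minimal hsub (isClosed_le (ev_cont α β) continuous_const) hzc
    simp only [mem_ofPred_eq] at this
    linarith
  · apply convexHull_min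
    · intro m hm H hH
      obtain ⟨α, β, t, hne, hg⟩ := mids_good hm
      obtain ⟨α', β', t', m', hm', hne', rfl, hg'⟩ := admissible_good hH
      have hle := mid_le hne hg hg'.vol
      obtain ⟨x, hx, hxt⟩ := exists_below hg'.vol
      have hmh := good_mem hg
      -- the points `(1 - s) m + s x`
      have hlim : Filter.Tendsto (fun s : ℝ => (1 - s) • m + s • x) (nhdsWithin 0 (Ioi 0))
          (nhds m) := by
        have : Filter.Tendsto (fun s : ℝ => (1 - s) • m + s • x) (nhds 0) (nhds ((1 - (0:ℝ)) • m + (0:ℝ) • x)) :=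
          (Continuous.tendsto (by fun_prop) 0)
        simp only [sub_zero, one_smul, zero_smul, add_zero] at this
        exact this.mono_left nhdsWithin_le_nhds
      refine mem_closure_of_tendsto hlim ?_
      have hmem : Ioc (0:ℝ) 1 ∈ nhdsWithin (0:ℝ) (Ioi 0) := Ioc_mem_nhdsGT one_pos
      filter_upwards [hmem] with s hs
      refine ⟨hex_convex hmh hx (by linarith [hs.2]) hs.1.le (by ring), ?_⟩
      intro hc
      change t' ≤ ev α' β' _ at hc
      rw [ev_comb] at hc
      have := hs.1
      have := hs.2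
      nlinarith
    · have : flotation hex (1 / 2) = ⋂ H ∈ {H : Set (E 2) | Admissible hex (1 / 2) H},
          closure (hex \ H) := by
        ext x; simp [flotation]
      rw [this]
      refine convex_iInter₂ fun H hH => ?_
      obtain ⟨α, β, t, -, -, -, rfl, -⟩ := admissible_good hH
      refine Convex.closure ?_
      intro x hx y hy a b ha hb hab
      refine ⟨hex_convex hx.1 hy.1 ha hb hab, ?_⟩
      have h1 : ev α β x < t := not_le.1 hx.2
      have h2 : ev α β y < t := not_le.1 hy.2
      intro hc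
      change t ≤ ev α β _ at hc
      rw [ev_comb] at hc
      have hb' : b = 1 - a := by linarith
      subst hb'
      rcases ha.eq_or_lt with h0 | h0
      · rw [← h0] at hc; nlinarith
      · nlinarith

/-- the hexagon is not an ellipsoid -/
lemma not_ellipsoid : ¬ IsEllipsoid hex := by
  rintro ⟨L, c, hK⟩
  have hp1 : (!₂[1, 0] : E 2) ∈ hex := by refine ⟨?_, ?_, ?_⟩ <;> simp
  have hp2 : (!₂[1, 1] : E 2) ∈ hex := by refine ⟨?_, ?_, ?_⟩ <;> simp
  rw [hK] at hp1 hp2
  obtain ⟨p, hp, hp'⟩ := hp1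
  obtain ⟨q, hq, hq'⟩ := hp2
  rw [mem_closedBall_zero_iff] at hp hq
  have hpq : p ≠ q := by
    rintro rfl
    have := hp'.symm.trans hq'
    have := congrArg (fun v : E 2 => v 1) this
    simp at this
  have hlt : ‖(1 / 2 : ℝ) • p + (1 / 2 : ℝ) • q‖ < 1 :=
    norm_combo_lt_of_ne hp hq hpq (by norm_num) (by norm_num) (by norm_num)
  set r := (1 / 2 : ℝ) • p + (1 / 2 : ℝ) • q with hr
  set w := L.symm (!₂[1, 0] : E 2) with hw
  have hcont : Filter.Tendsto (fun ε : ℝ => ‖r + ε • w‖) (nhdsWithin 0 (Ioi 0)) (nhds ‖r‖) := by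
    have : Filter.Tendsto (fun ε : ℝ => ‖r + ε • w‖) (nhds 0) (nhds ‖r + (0:ℝ) • w‖) :=
      Continuous.tendsto (by fun_prop) 0
    simp only [zero_smul, add_zero] at this
    exact this.mono_left nhdsWithin_le_nhds
  have hev := hcont.eventually (gt_mem_nhds hlt)
  obtain ⟨ε, hε1, hε2⟩ := (hev.and self_mem_nhdsWithin).exists
  have hmem : c + L (r + ε • w) ∈ hex := by
    rw [hK]
    exact ⟨_, by rw [mem_closedBall_zero_iff]; exact hε1.le, rfl⟩
  have hval : c + L (r + ε • w) = (!₂[1 + ε, 1 / 2] : E 2) := by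
    have : c + L (r + ε • w) = (1 / 2 : ℝ) • (c + L p) + (1 / 2 : ℝ) • (c + L q) + ε • L w := by
      rw [hr, map_add, map_add, map_smul, map_smul, map_smul]
      module
    rw [this]
    simp only [] at hp' hq'
    rw [hp', hq', hw, L.apply_symm_apply]
    ext i
    fin_cases i
    · simp; norm_num
    · simp
  rw [hval] at hmem
  have h1 := hmem.1
  simp only [Matrix.cons_val_zero] at h1
  have hε : 0 < ε := hε2
  rw [abs_le] at h1
  linarith [h1.2]

lemma two_le_vol : 2 ≤ volume hex := by
  set A : Set (ℝ × ℝ) := Icc (0 : ℝ) 1 ×ˢ Icc (0 : ℝ) 1 with hA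
  set B : Set (ℝ × ℝ) := Ico (-1 : ℝ) 0 ×ˢ Icc (-1 : ℝ) 0 with hB
  have hsub : co ⁻¹' (A ∪ B) ⊆ hex := by
    rintro x (⟨⟨h1, h2⟩, ⟨h3, h4⟩⟩ | ⟨⟨h1, h2⟩, ⟨h3, h4⟩⟩)
    · simp only [co] at h1 h2 h3 h4
      refine ⟨?_, ?_, ?_⟩ <;> rw [abs_le] <;> constructor <;> linarith
    · simp only [co] at h1 h2 h3 h4
      refine ⟨?_, ?_, ?_⟩ <;> rw [abs_le] <;> constructor <;> linarith
  refine le_trans ?_ (measure_mono hsub)
  rw [co_mp.measure_preimage_emb co_emb, measure_union]
  · rw [hA, hB, Measure.volume_eq_prod, Measure.prod_prod, Measure.prod_prod]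
    simp only [Real.volume_Icc, Real.volume_Ico]
    norm_num
  · rw [Set.disjoint_left]
    rintro ⟨x, y⟩ ⟨⟨h1, -⟩, -⟩ ⟨⟨-, h2⟩, -⟩
    simp only at h1 h2
    linarith
  · exact measurableSet_Ico.prod measurableSet_Icc

lemma interior_hull : (interior (convexHull ℝ mids)).Nonempty := by
  have h1 : (!₂[1 / 2, 1 / 2] : E 2) ∈ mids := by
    refine mem_iUnion.2 ⟨0, ⟨_, ⟨2, ⟨by norm_num, le_rfl⟩, rfl⟩, ?_⟩⟩
    simp only [Fin.val_zero, Function.iterate_zero, id, mid]
    ext i; fin_cases i <;> norm_num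
  have h2 : (!₂[0, 1 / 2] : E 2) ∈ mids := by
    refine mem_iUnion.2 ⟨0, ⟨_, ⟨1, ⟨le_rfl, by norm_num⟩, rfl⟩, ?_⟩⟩
    simp only [Fin.val_zero, Function.iterate_zero, id, mid]
    ext i; fin_cases i <;> norm_num
  have h3 : (!₂[1 / 2, 0] : E 2) ∈ mids := by
    have := mids_rot h1
    convert this using 1
    ext i; fin_cases i <;> simp
  set U : Set (E 2) := {x | x 0 < 1 / 2 ∧ x 1 < 1 / 2 ∧ 1 / 2 < x 0 + x 1} with hU
  have hUo : IsOpen U := by
    rw [hU]
    simp only [Set.ofPred_and]
    refine IsOpen.inter ?_ (IsOpen.inter ?_ ?_)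
    · exact isOpen_lt (by fun_prop) continuous_const
    · exact isOpen_lt (by fun_prop) continuous_const
    · exact isOpen_lt continuous_const (by fun_prop)
  have hsub : U ⊆ convexHull ℝ mids := by
    rintro x ⟨hx1, hx2, hx3⟩
    have hc := convex_convexHull ℝ (mids : Set (E 2))
    have := hc.sum_mem (t := Finset.univ) (w := ![2 * x 0 + 2 * x 1 - 1, 1 - 2 * x 0, 1 - 2 * x 1])
      (z := ![(!₂[1 / 2, 1 / 2] : E 2), !₂[0, 1 / 2], !₂[1 / 2, 0]]) ?_ ?_ ?_
    · convert this using 1
      simp only [Fin.sum_univ_three, Matrix.cons_val_zero, Matrix.cons_val_one, Matrix.cons_val_two,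
        Matrix.head_cons, Matrix.tail_cons]
      ext i
      fin_cases i <;> simp <;> ring
    · intro i _
      fin_cases i <;> simp <;> linarith
    · simp only [Fin.sum_univ_three, Matrix.cons_val_zero, Matrix.cons_val_one, Matrix.cons_val_two,
        Matrix.head_cons, Matrix.tail_cons]
      ring
    · intro i _
      fin_cases i
      · exact subset_convexHull ℝ _ h1
      · exact subset_convexHull ℝ _ h2
      · exact subset_convexHull ℝ _ h3
  refine ⟨!₂[2 / 5, 2 / 5], interior_maximal hsub hUo ?_⟩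
  refine ⟨?_, ?_, ?_⟩ <;> simp <;> norm_num

/-- **The negated form of Q1, with `n = 2`.** There are a convex body `K` in the plane which is not
an ellipsoid and a number `δ` with `0 < 2 δ < Vol(K)`, such that the body of flotation and the body
of buoyancy of `K` for `δ` are homothetic; moreover the body of flotation has interior points.
(`K` is an affinely regular hexagon.) -/
theorem result : ∃ K : Set (E 2), IsConvexBody K ∧ ¬ IsEllipsoid K ∧
    ∃ δ : ℝ, 0 < δ ∧ ENNReal.ofReal (2 * δ) < volume K ∧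
      (interior (flotation K δ)).Nonempty ∧
      Homothetic (flotation K δ) (buoyancy K δ) := by
  refine ⟨hex, ⟨hex_compact, hex_convex, interior_ne⟩, not_ellipsoid, 1 / 2, by norm_num, ?_, ?_, ?_⟩
  · refine lt_of_lt_of_le ?_ two_le_vol
    norm_num
  · rw [flotation_eq]
    exact interior_hull
  · refine ⟨0, 4 / 3, by norm_num, ?_⟩
    rw [flotation_eq, buoyancy_eq]
    simp

end Pool.Agent.Results.MP_56fddc_gt.HexagonCounterexample
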